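import Mathlib

namespace Pool.Agent.Results.MP_9ec85a_gt.NoDiscrete

open Set Metric

/-- Two subsets of a metric space are congruent if a (surjective) isometry maps one onto the
other. -/
def Congruent {M : Type*} [MetricSpace M] (A B : Set M) : Prop :=
  ∃ g : M ≃ᵢ M, g '' A = B

/-- `X` is a weak Mycielski set: for two distinct points `p, q ∈ X`, both `X \ {p}` and `X \ {q}`
are congruent to `X`. -/
def IsWeakMycielski {M : Type*} [MetricSpace M] (X : Set M) : Prop :=
  ∃ p ∈ X, ∃ q ∈ X, p ≠ q ∧ Congruent (X \ {p}) X ∧ Congruent (X \ {q}) X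

/-- `X` is discrete: every point of `X` is isolated in `X`. -/
def IsDiscreteSet {M : Type*} [MetricSpace M] (X : Set M) : Prop :=
  ∀ x ∈ X, ∃ ε > 0, ∀ y ∈ X, y ≠ x → ε ≤ dist x y

section Words

variable {M : Type*} [MetricSpace M]

/-- The isometry given by a positive word. -/
def wd (gen : Bool → M ≃ᵢ M) : List Bool → M ≃ᵢ M
  | [] => IsometryEquiv.refl M
  | s :: l => (wd gen l).trans (gen s)

@[simp] theorem wd_nil (gen : Bool → M ≃ᵢ M) (x : M) : wd gen [] x = x := rfl

@[simp] theorem wd_cons (gen : Bool → M ≃ᵢ M) (s : Bool) (l : List Bool) (x : M) :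
    wd gen (s :: l) x = gen s (wd gen l x) := rfl

theorem wd_append (gen : Bool → M ≃ᵢ M) (l₁ l₂ : List Bool) (x : M) :
    wd gen (l₁ ++ l₂) x = wd gen l₁ (wd gen l₂ x) := by
  induction l₁ with
  | nil => rfl
  | cons s l ih => rw [List.cons_append, wd_cons, wd_cons, ih]

/-- The exceptional points of a word. -/
def exc (gen : Bool → M ≃ᵢ M) (r : Bool → M) : List Bool → List M
  | [] => []
  | s :: l => r s :: (exc gen r l).map (gen s)

theorem exc_length (gen : Bool → M ≃ᵢ M) (r : Bool → M) (l : List Bool) :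
    (exc gen r l).length = l.length := by
  induction l with
  | nil => rfl
  | cons s l ih => simp [exc, ih]

variable {gen : Bool → M ≃ᵢ M} {r : Bool → M} {X : Set M}

theorem wd_mem (hX : ∀ s, gen s '' X = X \ {r s}) (l : List Bool) {x : M} (hx : x ∈ X) :
    wd gen l x ∈ X := by
  induction l with
  | nil => exact hx
  | cons s l ih =>
    have : gen s (wd gen l x) ∈ gen s '' X := mem_image_of_mem _ ih
    rw [hX s] at this
    exact this.1

theorem mem_exc (hX : ∀ s, gen s '' X = X \ {r s}) (l : List Bool) {x : M} (hx : x ∈ X)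
    (hx2 : x ∉ wd gen l '' X) : x ∈ exc gen r l := by
  induction l generalizing x with
  | nil => exact absurd ⟨x, hx, rfl⟩ hx2
  | cons s l ih =>
    by_cases h : x = r s
    · simp [exc, h]
    · have h1 : x ∈ gen s '' X := by rw [hX s]; exact ⟨hx, h⟩
      obtain ⟨y, hy, rfl⟩ := h1
      have h2 : y ∉ wd gen l '' X := by
        rintro ⟨z, hz, rfl⟩
        exact hx2 ⟨z, hz, rfl⟩
      have h3 := ih hy h2
      simp only [exc, List.mem_cons, List.mem_map]
      exact Or.inr ⟨y, h3, rfl⟩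

theorem exc_form {l : List Bool} {x : M} (hx : x ∈ exc gen r l) :
    ∃ l₁ s l₂, l = l₁ ++ s :: l₂ ∧ x = wd gen l₁ (r s) := by
  induction l generalizing x with
  | nil => simp [exc] at hx
  | cons s l ih =>
    simp only [exc, List.mem_cons, List.mem_map] at hx
    rcases hx with rfl | ⟨y, hy, rfl⟩
    · exact ⟨[], s, l, rfl, rfl⟩
    · obtain ⟨l₁, u, l₂, rfl, rfl⟩ := ih hy
      exact ⟨s :: l₁, u, l₂, rfl, rfl⟩

/-- Nonempty positive words have no fixed point. -/
theorem no_fixed (hX : ∀ s, gen s '' X = X \ {r s}) (hr : ∀ s, r s ∈ X)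
    (hfin : ∀ c : M, ∀ R : ℝ, (X ∩ closedBall c R).Finite)
    {l : List Bool} (hl : l ≠ []) (c : M) : wd gen l c ≠ c := by
  intro hc
  obtain ⟨s, l', rfl⟩ := List.exists_cons_of_ne_nil hl
  set F := X ∩ closedBall c (dist (r s) c) with hF
  have hmaps : MapsTo (wd gen (s :: l')) F F := by
    intro x hx
    refine ⟨wd_mem hX _ hx.1, ?_⟩
    have h1 : dist (wd gen (s :: l') x) c = dist x c := by
      conv_lhs => rw [← hc]
      exact (wd gen (s :: l')).dist_eq x c
    rw [mem_closedBall, h1]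
    exact hx.2
  have hfinF : F.Finite := hfin c (dist (r s) c)
  have himg : wd gen (s :: l') '' F = F := by
    apply Set.eq_of_subset_of_ncard_le hmaps.image_subset ?_ hfinF
    rw [ncard_image_of_injective _ (wd gen (s :: l')).injective]
  have hrF : r s ∈ F := ⟨hr s, by simp⟩
  rw [← himg] at hrF
  obtain ⟨y, hy, hy2⟩ := hrF
  have h1 : r s ∈ gen s '' X := ⟨wd gen l' y, wd_mem hX l' hy.1, hy2⟩
  rw [hX s] at h1
  exact h1.2 rfl

/-- Distinct positive words act differently on `X`. -/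
theorem words_free (hX : ∀ s, gen s '' X = X \ {r s}) (hr : ∀ s, r s ∈ X)
    (hne : r true ≠ r false)
    (hfin : ∀ c : M, ∀ R : ℝ, (X ∩ closedBall c R).Finite) :
    ∀ l₁ l₂ : List Bool, (∀ x ∈ X, wd gen l₁ x = wd gen l₂ x) → l₁ = l₂ := by
  have hne' : ∀ s t : Bool, s ≠ t → r s ≠ r t := by
    intro s t hst
    cases s <;> cases t <;> simp_all
    exact fun h => hne h.symm
  -- key step
  have key : ∀ (s t : Bool) (l₁ l₂ : List Bool), s ≠ t →
      (∀ x ∈ X, wd gen (s :: l₁) x = wd gen (t :: l₂) x) →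
      ∃ m : List Bool, m ≠ [] ∧ r s = wd gen m (r t) := by
    intro s t l₁ l₂ hst h
    have h1 : r s ∉ wd gen (t :: l₂) '' X := by
      rintro ⟨y, hy, hy2⟩
      rw [← h y hy] at hy2
      have h1 : r s ∈ gen s '' X := ⟨wd gen l₁ y, wd_mem hX l₁ hy, hy2⟩
      rw [hX s] at h1
      exact h1.2 rfl
    obtain ⟨m, u, m₂, hm, hrs⟩ := exc_form (mem_exc hX (t :: l₂) (hr s) h1)
    by_cases hm0 : m = []
    · subst hm0
      simp only [List.nil_append, List.cons.injEq] at hm
      rw [wd_nil, ← hm.1] at hrs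
      exact absurd hrs (hne' s t hst)
    · by_cases hu : u = s
      · subst hu
        exact absurd hrs.symm (no_fixed hX hr hfin hm0 (r u))
      · have hut : u = t := by
          cases s <;> cases t <;> cases u <;> simp_all
        subst hut
        exact ⟨m, hm0, hrs⟩
  intro l₁
  induction l₁ with
  | nil =>
    intro l₂ h
    by_contra hcon
    exact no_fixed hX hr hfin (Ne.symm hcon) (r true) (h (r true) (hr true)).symm
  | cons s l₁ ih =>
    intro l₂ h
    cases l₂ with
    | nil => exact absurd (h (r true) (hr true)) (no_fixed hX hr hfin (by simp) (r true))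
    | cons t l₂ =>
      by_cases hst : s = t
      · subst hst
        rw [ih l₂ (fun x hx => (gen s).injective (h x hx))]
      · exfalso
        obtain ⟨m, hm, h1⟩ := key s t l₁ l₂ hst h
        obtain ⟨m', hm', h2⟩ := key t s l₂ l₁ (Ne.symm hst) (fun x hx => (h x hx).symm)
        have h3 : wd gen (m ++ m') (r s) = r s := by
          rw [wd_append, ← h2, ← h1]
        exact no_fixed hX hr hfin (by simp [hm]) (r s) h3

/-- the local count grows at most linearly along positive words -/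
theorem local_count (hX : ∀ s, gen s '' X = X \ {r s})
    (hfin : ∀ c : M, ∀ R : ℝ, (X ∩ closedBall c R).Finite) (l : List Bool) (y : M) :
    (X ∩ ball (wd gen l y) 1).ncard ≤ l.length + (X ∩ ball y 1).ncard := by
  classical
  have hf : (X ∩ ball y 1).Finite :=
    (hfin y 1).subset (inter_subset_inter_right _ ball_subset_closedBall)
  have hsub : X ∩ ball (wd gen l y) 1 ⊆
      ((exc gen r l).toFinset : Set M) ∪ wd gen l '' (X ∩ ball y 1) := by
    rintro x ⟨hx, hx2⟩
    by_cases h : x ∈ wd gen l '' X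
    · right
      obtain ⟨z, hz, rfl⟩ := h
      refine ⟨z, ⟨hz, ?_⟩, rfl⟩
      rw [mem_ball, (wd gen l).dist_eq] at hx2
      exact hx2
    · left
      simpa using mem_exc hX l hx h
  refine (ncard_le_ncard hsub ((Finset.finite_toSet _).union (hf.image _))).trans ?_
  refine (ncard_union_le _ _).trans ?_
  refine Nat.add_le_add ?_ (ncard_image_le hf)
  rw [ncard_coe_finset]
  exact (List.toFinset_card_le _).trans (exc_length gen r l).le

end Words

/-! ### Reduction to locally finite sets -/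

section Reduction

variable {M : Type*} [MetricSpace M] [ProperSpace M]

theorem reduction {X : Set M} (hdisc : IsDiscreteSet X) {gen : Bool → M ≃ᵢ M} {r : Bool → M}
    (hX : ∀ s, gen s '' X = X \ {r s}) (hr : ∀ s, r s ∈ X) :
    ∃ Y : Set M, (∀ s, gen s '' Y = Y \ {r s}) ∧ (∀ s, r s ∈ Y) ∧
      ∀ c : M, ∀ R : ℝ, (Y ∩ closedBall c R).Finite := by
  classical
  set G : Subgroup (M ≃ᵢ M) := Subgroup.closure (range gen) with hG
  have hgen : ∀ s, gen s ∈ G := fun s => Subgroup.subset_closure (mem_range_self s)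
  set Y : Set M := {x | x ∈ X ∧ ∃ g ∈ G, ∃ s, x = g (r s)} with hY
  have hYX : ∀ s, gen s '' Y = Y \ {r s} := by
    intro s
    ext x
    constructor
    · rintro ⟨y, ⟨hy, g, hg, u, rfl⟩, rfl⟩
      have h1 : gen s (g (r u)) ∈ gen s '' X := mem_image_of_mem _ hy
      rw [hX s] at h1
      exact ⟨⟨h1.1, gen s * g, G.mul_mem (hgen s) hg, u, rfl⟩, h1.2⟩
    · rintro ⟨⟨hx, g, hg, u, rfl⟩, hne⟩
      have h1 : g (r u) ∈ gen s '' X := by rw [hX s]; exact ⟨hx, hne⟩
      obtain ⟨y, hy, hy2⟩ := h1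
      refine ⟨y, ⟨hy, (gen s)⁻¹ * g, G.mul_mem (G.inv_mem (hgen s)) hg, u, ?_⟩, hy2⟩
      change y = (gen s).symm (g (r u))
      rw [← hy2]
      simp
  have hYr : ∀ s, r s ∈ Y := fun s => ⟨hr s, 1, G.one_mem, s, rfl⟩
  refine ⟨Y, hYX, hYr, ?_⟩
  -- isolation radius
  have hiso : ∃ ρ > 0, ∀ s, ∀ y ∈ X, y ≠ r s → ρ ≤ dist (r s) y := by
    obtain ⟨ε₁, h1, h1'⟩ := hdisc (r true) (hr true)
    obtain ⟨ε₂, h2, h2'⟩ := hdisc (r false) (hr false)
    refine ⟨min ε₁ ε₂, lt_min h1 h2, fun s y hy hne => ?_⟩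
    cases s
    · exact (min_le_right _ _).trans (h2' y hy hne)
    · exact (min_le_left _ _).trans (h1' y hy hne)
  obtain ⟨ρ, hρ, hρ2⟩ := hiso
  intro c R
  by_contra hinf
  have hinf' : (Y ∩ closedBall c R).Infinite := hinf
  obtain ⟨z, _, hz⟩ := hinf'.exists_accPt_of_subset_isCompact (isCompact_closedBall c R)
    inter_subset_right
  -- the derived set of Y
  have hacc : ∀ ε > 0, (Y ∩ ball z ε).Infinite := by
    intro ε hε
    have h1 : AccPt z (Filter.principal (ball z ε ∩ (Y ∩ closedBall c R))) :=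
      hz.nhds_inter (ball_mem_nhds z hε)
    exact (Set.Infinite.of_accPt h1).mono (fun x hx => ⟨hx.2.1, hx.1⟩)
  -- invariance
  have hstep : ∀ s, (∀ w : M, (∀ ε > 0, (Y ∩ ball w ε).Infinite) →
      ∀ ε > 0, (Y ∩ ball (gen s w) ε).Infinite) ∧
      (∀ w : M, (∀ ε > 0, (Y ∩ ball w ε).Infinite) →
      ∀ ε > 0, (Y ∩ ball ((gen s)⁻¹ w) ε).Infinite) := by
    intro s
    constructor
    · intro w hw ε hε
      have h1 : (gen s '' (Y ∩ ball w ε)).Infinite :=
        (hw ε hε).image (gen s).injective.injOn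
      refine h1.mono ?_
      rintro _ ⟨x, hx, rfl⟩
      refine ⟨?_, ?_⟩
      · have h2 : gen s x ∈ gen s '' Y := mem_image_of_mem _ hx.1
        rw [hYX s] at h2
        exact h2.1
      · rw [mem_ball, (gen s).dist_eq]
        exact hx.2
    · intro w hw ε hε
      have h0 : ((Y ∩ ball w ε) \ {r s}).Infinite := (hw ε hε).sdiff (finite_singleton _)
      have h1 : ((gen s).symm '' ((Y ∩ ball w ε) \ {r s})).Infinite :=
        h0.image (gen s).symm.injective.injOn
      refine h1.mono ?_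
      rintro _ ⟨x, hx, rfl⟩
      refine ⟨?_, ?_⟩
      · have h2 : x ∈ gen s '' Y := by rw [hYX s]; exact ⟨hx.1.1, hx.2⟩
        obtain ⟨y, hy, rfl⟩ := h2
        simpa using hy
      · rw [mem_ball]
        change dist ((gen s).symm x) ((gen s).symm w) < ε
        rw [(gen s).symm.dist_eq]
        exact hx.1.2
  have hinv : ∀ g ∈ G, (∀ w : M, (∀ ε > 0, (Y ∩ ball w ε).Infinite) →
      ∀ ε > 0, (Y ∩ ball (g w) ε).Infinite) ∧
      (∀ w : M, (∀ ε > 0, (Y ∩ ball w ε).Infinite) →
      ∀ ε > 0, (Y ∩ ball (g⁻¹ w) ε).Infinite) := by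
    intro g hg
    refine Subgroup.closure_induction (p := fun g _ =>
      (∀ w : M, (∀ ε > 0, (Y ∩ ball w ε).Infinite) →
      ∀ ε > 0, (Y ∩ ball (g w) ε).Infinite) ∧
      (∀ w : M, (∀ ε > 0, (Y ∩ ball w ε).Infinite) →
      ∀ ε > 0, (Y ∩ ball (g⁻¹ w) ε).Infinite)) ?_ ?_ ?_ ?_ hg
    · rintro _ ⟨s, rfl⟩
      exact hstep s
    · exact ⟨fun w hw => hw, fun w hw => by rw [inv_one]; exact hw⟩
    · intro x y _ _ hx hy
      refine ⟨fun w hw => hx.1 _ (hy.1 w hw), fun w hw => ?_⟩
      rw [mul_inv_rev]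
      exact hy.2 _ (hx.2 w hw)
    · intro x _ hx
      exact ⟨hx.2, by rw [inv_inv]; exact hx.1⟩
  obtain ⟨x, ⟨hxX, g, hg, s, hxg⟩, hx2⟩ := (hacc (ρ / 2) (half_pos hρ)).nonempty
  have h1 := (hinv g hg).2 z hacc (ρ / 2) (half_pos hρ)
  have h2 : dist (g⁻¹ z) (r s) < ρ / 2 := by
    have h3 : dist (g⁻¹ z) (r s) = dist z x := by
      rw [hxg]
      have h4 : r s = g⁻¹ (g (r s)) := by
        change r s = g.symm (g (r s))
        simp
      conv_lhs => rw [h4]
      change dist (g.symm z) (g.symm (g (r s))) = _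
      exact g.symm.dist_eq _ _
    rw [h3, dist_comm]
    exact hx2
  refine h1 ((finite_singleton (r s)).subset ?_)
  rintro y ⟨hy, hy2⟩
  by_contra hne
  have h5 := hρ2 s y hy.1 hne
  rw [mem_ball] at hy2
  have h6 := dist_triangle (r s) (g⁻¹ z) y
  have h7 := dist_comm (r s) (g⁻¹ z)
  have h8 := dist_comm (g⁻¹ z) y
  linarith

end Reduction

/-! ### Counting in Euclidean space -/

section Euclid

variable {d : ℕ}

/-- grid map -/
noncomputable def grid (d : ℕ) (x : EuclideanSpace ℝ (Fin d)) : Fin d → ℤ :=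
  fun j => ⌊((d : ℝ) + 1) * x j⌋

theorem grid_close {x y : EuclideanSpace ℝ (Fin d)} (h : grid d x = grid d y) : dist x y < 1 := by
  have h1 : ∀ j, |x j - y j| ≤ 1 / ((d : ℝ) + 1) := by
    intro j
    have h2 : ⌊((d : ℝ) + 1) * x j⌋ = ⌊((d : ℝ) + 1) * y j⌋ := congrFun h j
    have h3 := Int.abs_sub_lt_one_of_floor_eq_floor h2
    have hd : (0 : ℝ) < (d : ℝ) + 1 := by positivity
    rw [← mul_sub, abs_mul, abs_of_pos hd] at h3
    rw [le_div_iff₀ hd]
    linarith
  rw [EuclideanSpace.dist_eq, Real.sqrt_lt' one_pos]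
  calc ∑ j, dist (x j) (y j) ^ 2 ≤ ∑ _j : Fin d, (1 / ((d : ℝ) + 1)) ^ 2 := by
        apply Finset.sum_le_sum
        intro j _
        rw [Real.dist_eq]
        exact pow_le_pow_left₀ (abs_nonneg _) (h1 j) 2
    _ = d * (1 / ((d : ℝ) + 1)) ^ 2 := by simp
    _ < 1 ^ 2 := by
        rw [div_pow, one_pow, mul_one_div, div_lt_one (by positivity)]
        nlinarith [(Nat.cast_nonneg d : (0 : ℝ) ≤ (d : ℝ))]

theorem grid_count (S : Finset (EuclideanSpace ℝ (Fin d))) (R : ℕ) (hS : ∀ x ∈ S, ‖x‖ ≤ R)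
    (m : ℕ) (hm : ∀ x ∈ S, ((S : Set (EuclideanSpace ℝ (Fin d))) ∩ ball x 1).ncard ≤ m) :
    S.card ≤ m * (2 * ((d + 1) * R + 1) + 1) ^ d := by
  classical
  have h1 : S.card ≤ m * (S.image (grid d)).card := by
    apply Finset.card_le_mul_card_image
    intro c hc
    obtain ⟨x, hx, rfl⟩ := Finset.mem_image.mp hc
    refine le_trans ?_ (hm x hx)
    rw [← ncard_coe_finset]
    apply ncard_le_ncard
    · intro y hy
      simp only [Finset.coe_filter, mem_ofPred_eq] at hy
      exact ⟨hy.1, grid_close hy.2⟩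
    · exact S.finite_toSet.inter_of_left _
  refine h1.trans (Nat.mul_le_mul_left m ?_)
  have h2 : S.image (grid d) ⊆ Fintype.piFinset
      (fun _ : Fin d => Finset.Icc (-(((d + 1) * R + 1 : ℕ) : ℤ)) (((d + 1) * R + 1 : ℕ) : ℤ)) := by
    intro c hc
    obtain ⟨x, hx, rfl⟩ := Finset.mem_image.mp hc
    rw [Fintype.mem_piFinset]
    intro j
    rw [Finset.mem_Icc]
    have h3 : |x j| ≤ R := by
      have := PiLp.norm_apply_le x j
      rw [Real.norm_eq_abs] at this
      exact this.trans (hS x hx)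
    have h4 : |((d : ℝ) + 1) * x j| ≤ ((d : ℝ) + 1) * R := by
      rw [abs_mul, abs_of_pos (by positivity : (0 : ℝ) < (d : ℝ) + 1)]
      exact mul_le_mul_of_nonneg_left h3 (by positivity)
    obtain ⟨h5, h6⟩ := abs_le.mp h4
    unfold grid
    constructor
    · rw [Int.le_floor]
      push_cast
      linarith
    · have : (⌊((d : ℝ) + 1) * x j⌋ : ℝ) ≤ ((d : ℝ) + 1) * R + 1 :=
        (Int.floor_le _).trans (by linarith)
      exact_mod_cast this
  refine (Finset.card_le_card h2).trans ?_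
  rw [Fintype.card_piFinset]
  simp only [Int.card_Icc, Finset.prod_const, Finset.card_univ, Fintype.card_fin]
  apply le_of_eq
  congr 1
  omega

theorem wd_norm {gen : Bool → EuclideanSpace ℝ (Fin d) ≃ᵢ EuclideanSpace ℝ (Fin d)} {C : ℕ}
    (hC : ∀ s, ‖gen s 0‖ ≤ C) (l : List Bool) (x : EuclideanSpace ℝ (Fin d)) :
    ‖wd gen l x‖ ≤ ‖x‖ + C * l.length := by
  induction l with
  | nil => simp
  | cons s l ih =>
    have h1 : ‖gen s (wd gen l x)‖ ≤ ‖wd gen l x‖ + C := by
      have h2 : dist (gen s (wd gen l x)) (gen s 0) = dist (wd gen l x) 0 := (gen s).dist_eq _ _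
      rw [dist_zero_right] at h2
      have h3 := norm_sub_norm_le (gen s (wd gen l x)) (gen s 0)
      rw [← dist_eq_norm, h2] at h3
      have := hC s
      linarith
    rw [wd_cons]
    push_cast [List.length_cons]
    linarith

theorem growth (A D : ℕ) : ∃ n : ℕ, (A * (n + 1)) ^ D < 2 ^ n := by
  have h := tendsto_pow_const_div_const_pow_of_one_lt D (r := (2 : ℝ)) (by norm_num)
  have h2 : Filter.Tendsto (fun n : ℕ => (2 * A : ℝ) ^ D * ((n : ℝ) ^ D / 2 ^ n)) Filter.atTop
      (nhds ((2 * A : ℝ) ^ D * 0)) := h.const_mul _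
  rw [mul_zero] at h2
  have h3 := (h2.eventually (gt_mem_nhds one_pos)).and (Filter.eventually_ge_atTop 1)
  obtain ⟨n, hn, hn1⟩ := h3.exists
  refine ⟨n, ?_⟩
  have h4 : ((A * (n + 1) : ℕ) : ℝ) ^ D ≤ (2 * A : ℝ) ^ D * (n : ℝ) ^ D := by
    rw [← mul_pow]
    apply pow_le_pow_left₀ (by positivity)
    push_cast
    have : (1 : ℝ) ≤ n := by exact_mod_cast hn1
    nlinarith [(Nat.cast_nonneg A : (0 : ℝ) ≤ (A : ℝ))]
  rw [mul_div_assoc', div_lt_one (by positivity)] at hn
  have h5 : ((A * (n + 1) : ℕ) : ℝ) ^ D < 2 ^ n := lt_of_le_of_lt h4 hn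
  exact_mod_cast h5

theorem main_count {X : Set (EuclideanSpace ℝ (Fin d))}
    {gen : Bool → EuclideanSpace ℝ (Fin d) ≃ᵢ EuclideanSpace ℝ (Fin d)}
    {r : Bool → EuclideanSpace ℝ (Fin d)}
    (hX : ∀ s, gen s '' X = X \ {r s}) (hr : ∀ s, r s ∈ X) (hne : r true ≠ r false)
    (hfin : ∀ c, ∀ R : ℝ, (X ∩ closedBall c R).Finite) : False := by
  classical
  obtain ⟨t, htX, htspan, htind⟩ := exists_affineIndependent ℝ (EuclideanSpace ℝ (Fin d)) X
  have htfin : t.Finite := finite_set_of_fin_dim_affineIndependent ℝ htind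
  set T := htfin.toFinset with hT
  have hTX : ∀ y ∈ T, y ∈ X := fun y hy => htX (htfin.mem_toFinset.mp hy)
  -- constants
  obtain ⟨C, hC⟩ : ∃ C : ℕ, ∀ s, ‖gen s 0‖ ≤ C := by
    obtain ⟨C, hC⟩ := exists_nat_ge (max ‖gen true 0‖ ‖gen false 0‖)
    refine ⟨C, fun s => ?_⟩
    cases s
    · exact (le_max_right _ _).trans hC
    · exact (le_max_left _ _).trans hC
  obtain ⟨D0, hD0⟩ : ∃ D0 : ℕ, ∀ y ∈ T, ‖y‖ ≤ D0 := by
    obtain ⟨B, hB⟩ := htfin.isBounded.exists_norm_le
    obtain ⟨D0, hD0⟩ := exists_nat_ge B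
    exact ⟨D0, fun y hy => (hB y (htfin.mem_toFinset.mp hy)).trans hD0⟩
  set M := T.sup (fun y => (X ∩ ball y 1).ncard) with hM
  -- the sets
  set Xn : ℕ → Finset (EuclideanSpace ℝ (Fin d)) := fun n =>
    ((Finset.univ : Finset (List.Vector Bool n)) ×ˢ T).image
      (fun p => wd gen p.1.toList p.2) with hXn
  have hXnX : ∀ n, ∀ x ∈ Xn n, x ∈ X := by
    intro n x hx
    obtain ⟨⟨l, y⟩, hp, rfl⟩ := Finset.mem_image.mp hx
    rw [Finset.mem_product] at hp
    exact wd_mem hX _ (hTX y hp.2)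
  have hcard : ∀ n, (Xn n).card ≤ (n + M) * (2 * ((d + 1) * (D0 + C * n) + 1) + 1) ^ d := by
    intro n
    apply grid_count
    · intro x hx
      obtain ⟨⟨l, y⟩, hp, rfl⟩ := Finset.mem_image.mp hx
      rw [Finset.mem_product] at hp
      have h1 := wd_norm hC l.toList y
      have h2 := hD0 y hp.2
      rw [List.Vector.toList_length] at h1
      push_cast
      linarith
    · intro x hx
      obtain ⟨⟨l, y⟩, hp, rfl⟩ := Finset.mem_image.mp hx
      rw [Finset.mem_product] at hp
      have h1 := local_count hX hfin l.toList y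
      rw [List.Vector.toList_length] at h1
      have h2 : (X ∩ ball y 1).ncard ≤ M :=
        Finset.le_sup (f := fun y => (X ∩ ball y 1).ncard) hp.2
      refine le_trans (ncard_le_ncard ?_ ?_) (h1.trans (Nat.add_le_add_left h2 n))
      · rintro z ⟨hz, hz2⟩
        exact ⟨hXnX n z hz, hz2⟩
      · exact (hfin (wd gen l.toList y) 1).subset
          (inter_subset_inter_right _ ball_subset_closedBall)
  have hinj : ∀ n, 2 ^ n ≤ (Xn n).card ^ T.card := by
    intro n
    let f : List.Vector Bool n → (T → Xn n) := fun l y =>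
      ⟨wd gen l.toList y, Finset.mem_image.mpr ⟨(l, y), Finset.mem_product.mpr
        ⟨Finset.mem_univ _, y.2⟩, rfl⟩⟩
    have hf : Function.Injective f := by
      intro l₁ l₂ h
      have h1 : ∀ y ∈ T, wd gen l₁.toList y = wd gen l₂.toList y := by
        intro y hy
        have := congrFun h ⟨y, hy⟩
        exact congrArg Subtype.val this
      have h2 : Set.EqOn ((wd gen l₁.toList).toRealAffineIsometryEquiv :
          EuclideanSpace ℝ (Fin d) →ᵃ[ℝ] EuclideanSpace ℝ (Fin d))
          ((wd gen l₂.toList).toRealAffineIsometryEquiv :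
          EuclideanSpace ℝ (Fin d) →ᵃ[ℝ] EuclideanSpace ℝ (Fin d)) t := by
        intro y hy
        exact h1 y (htfin.mem_toFinset.mpr hy)
      have h3 := AffineMap.eqOn_affineSpan h2
      rw [htspan] at h3
      have h4 : l₁.toList = l₂.toList := by
        apply words_free hX hr hne hfin
        intro x hx
        exact h3 (subset_affineSpan ℝ X hx)
      exact List.Vector.toList_injective h4
    have h5 := Fintype.card_le_of_injective f hf
    simpa using h5
  -- contradiction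
  set A := M + 1 + (2 * ((d + 1) * (D0 + C) + 1) + 1) with hA
  obtain ⟨n, hn⟩ := growth A ((d + 1) * T.card)
  have h1 : (Xn n).card ≤ (A * (n + 1)) ^ (d + 1) := by
    refine (hcard n).trans ?_
    rw [pow_succ']
    apply Nat.mul_le_mul
    · have h7 : n + M ≤ (M + 1) * (n + 1) := by nlinarith [Nat.zero_le (M * n)]
      exact h7.trans (Nat.mul_le_mul_right _ (by rw [hA]; omega))
    · apply Nat.pow_le_pow_left
      have h8 : D0 + C * n ≤ (D0 + C) * (n + 1) := by nlinarith [Nat.zero_le (D0 * n)]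
      have h9 : 2 * ((d + 1) * (D0 + C * n) + 1) + 1 ≤
          (2 * ((d + 1) * (D0 + C) + 1) + 1) * (n + 1) := by
        have h10 : (d + 1) * (D0 + C * n) ≤ (d + 1) * (D0 + C) * (n + 1) := by
          rw [mul_assoc]; exact Nat.mul_le_mul_left _ h8
        nlinarith
      exact h9.trans (Nat.mul_le_mul_right _ (by rw [hA]; omega))
  have h2 := (hinj n).trans (Nat.pow_le_pow_left h1 T.card)
  rw [← pow_mul] at h2
  omega

/-- **Answer to Q1: no.** For every `d` (in particular `d = 3`), no weak Mycielski set in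
`ℝ^d` is discrete. -/
theorem result :
    (∀ X : Set (EuclideanSpace ℝ (Fin 3)), IsWeakMycielski X → ¬ IsDiscreteSet X) ∧
    ∀ (d : ℕ) (X : Set (EuclideanSpace ℝ (Fin d))), IsWeakMycielski X → ¬ IsDiscreteSet X := by
  have main : ∀ (d : ℕ) (X : Set (EuclideanSpace ℝ (Fin d))),
      IsWeakMycielski X → ¬ IsDiscreteSet X := by
    rintro d X ⟨p, hp, q, hq, hpq, ⟨g, hg⟩, ⟨h, hh⟩⟩ hdisc
    set gen : Bool → EuclideanSpace ℝ (Fin d) ≃ᵢ EuclideanSpace ℝ (Fin d) :=
      fun s => if s then g.symm else h.symm with hgen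
    set r : Bool → EuclideanSpace ℝ (Fin d) := fun s => if s then p else q with hr
    have hX : ∀ s, gen s '' X = X \ {r s} := by
      intro s
      cases s
      · simp only [hgen, hr, Bool.false_eq_true, if_false]
        conv_lhs => rw [← hh]
        rw [← image_comp]
        simp
      · simp only [hgen, hr, if_true]
        conv_lhs => rw [← hg]
        rw [← image_comp]
        simp
    have hrX : ∀ s, r s ∈ X := by
      intro s
      cases s <;> simp [hr, hp, hq]
    obtain ⟨Y, hY1, hY2, hY3⟩ := reduction hdisc hX hrX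
    exact main_count hY1 hY2 (by simpa [hr] using hpq) hY3
  exact ⟨main 3, main⟩

end Euclid

end Pool.Agent.Results.MP_9ec85a_gt.NoDiscrete
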